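import Pool.Agent.Q161.ESV.Stm1
import Pool.Agent.Q149.ESB.REL

/-! Project ESV (helper161), job RELV: from the Kummer data `Δ` and the colouring `ch` to the `M` functions `z m`
(adapted from `Pool/Agent/Q149/ESB/REL.lean`). -/

set_option autoImplicit false
set_option linter.unusedSectionVars false

namespace Pool.Agent.Q288.ESV

open NumberField IsDedekindDomain Finset
open Pool.Agent.Q161.ESN (Eqv Nice iO Ov Fb Mv Rp S_FRX S_ZEX SqF)
open Pool.Agent.Q161.ESV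
open Pool.Agent.Q124.ESN (sqF_mono val_mv mv_iO not_mem_of_abv exists_prime_below prod_norm_le zmod2_cases)
open Pool.Agent.Q149.ESB (ov_unique eqv_prod)
open Pool.Agent.Q51.EL (Abv Par)

section sep

variable {V : Type} [AddCommGroup V]

/-- the linear forms separate the elements of a group killed by two -/
theorem sep (h2 : ∀ v : V, v + v = 0) {v : V} (h : ∀ χ : V →+ ZMod 2, χ v = 0) : v = 0 := by
  let _ : Module (ZMod 2) V := AddCommGroup.zmodModule (n := 2) (fun v => by rw [two_nsmul, h2])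
  exact (Module.forall_dual_apply_eq_zero_iff (ZMod 2) v).1 fun f => h f.toAddMonoidHom

end sep

section

variable {F K : Type} [Field F] [NumberField F] [Field K] [NumberField K] [Algebra F K]
  {V : Type} [AddCommGroup V] [DistribMulAction (K ≃ₐ[F] K) V] {Δ : (V →+ ZMod 2) → K}

/-- the parity is unique -/
theorem par_unique {w : HeightOneSpectrum (𝓞 K)} {x : K} {a b : ZMod 2}
    (h : Par w x a.val) (h' : Par w x b.val) : a = b := by
  obtain ⟨k, hk⟩ := h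
  obtain ⟨m, hm⟩ := h'
  rw [hk, WithZero.exp_inj] at hm
  rcases zmod2_cases a with rfl | rfl <;> rcases zmod2_cases b with rfl | rfl
  · rfl
  · have h0 : ((0 : ZMod 2).val : ℤ) = 0 := by decide
    have h1 : ((1 : ZMod 2).val : ℤ) = 1 := by decide
    rw [h0, h1] at hm
    omega
  · have h0 : ((0 : ZMod 2).val : ℤ) = 0 := by decide
    have h1 : ((1 : ZMod 2).val : ℤ) = 1 := by decide
    rw [h0, h1] at hm
    omega
  · rfl

/-- the type is unique -/
theorem tyv_unique (h2 : ∀ v : V, v + v = 0) {w : HeightOneSpectrum (𝓞 K)} {t t' : V}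
    (h : TyV w Δ t) (h' : TyV w Δ t') : t = t' := by
  refine sub_eq_zero.1 (sep h2 fun χ => ?_)
  rw [map_sub, par_unique (h χ) (h' χ), sub_self]

/-- the types are equivariant -/
theorem tyv_mv (heqv : ∀ (g : K ≃ₐ[F] K) (χ : V →+ ZMod 2), g (Δ (tw g χ)) = Δ χ)
    {w w' : HeightOneSpectrum (𝓞 K)} {g : K ≃ₐ[F] K} (hM : Mv g w w') {t : V} (h : TyV w Δ t) :
    TyV w' Δ (g • t) := by
  intro χ
  have h1 := h (tw g χ)
  have h2 : tw g χ t = χ (g • t) := rfl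
  rw [h2] at h1
  obtain ⟨k, hk⟩ := h1
  refine ⟨k, ?_⟩
  rw [← heqv g χ, val_mv hM, hk]

/-- `Kd` is monotone -/
theorem kd_mono {B B' : ℕ} {D : 𝓞 F} (h : Kd B D Δ) (hB : B ∣ B') : Kd B' D Δ :=
  ⟨h.ne, h.eqv, sqF_mono h.sq hB, fun l hl hlB => h.even l hl fun h' => hlB (h'.trans hB),
    fun l hl hlB => h.odd l hl fun h' => hlB (h'.trans hB)⟩

end

/-- **RELV** -/
theorem relv : S_ZEX → S_FRX → S_QAV → S_QDV → S_RELV := by
  classical
  intro hZEX hFRX hQAV hQDV M F K _ _ _ _ _ _ V _ _ _ hV ι _ Lf _ _ em rp hRp B1 hB1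
  obtain ⟨Bz, C0, K0, hBz, hC0, hZEX⟩ := hZEX F K V ι Lf em rp hRp
  obtain ⟨Ba, hBa, hQA⟩ := hQAV F K V hV
  obtain ⟨Bm, hBm, hQM⟩ := hQDV F K V hV
  obtain ⟨Bt, hBt, hFR⟩ := hFRX F K
  let B : ℕ := B1 * Bz * Bt * Ba * Bm
  have hB0 : B ≠ 0 := mul_ne_zero (mul_ne_zero (mul_ne_zero (mul_ne_zero hB1 hBz) hBt) hBa) hBm
  have dm : Bm ∣ B := Dvd.intro_left _ rfl
  have d5 : B1 * Bz * Bt * Ba ∣ B := Dvd.intro _ rfl
  have da : Ba ∣ B := (Dvd.intro_left _ rfl).trans d5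
  have d4 : B1 * Bz * Bt ∣ B := (Dvd.intro _ rfl).trans d5
  have dt : Bt ∣ B := (Dvd.intro_left _ rfl).trans d4
  have d3 : B1 * Bz ∣ B := (Dvd.intro _ rfl).trans d4
  have dz : Bz ∣ B := (Dvd.intro_left _ rfl).trans d3
  have d1 : B1 ∣ B := (Dvd.intro _ rfl).trans d3
  obtain ⟨Qa, hQa, hQA⟩ := hQA B da hB0
  obtain ⟨Qm, hQm, hQM⟩ := hQM B dm hB0
  refine ⟨B, C0 ^ M, K0, Qm, Qa, d1, hB0, pow_pos hC0 M, hQm, hQa, ?_⟩
  intro D Δ ch hkd1
  have hkd : Kd B D Δ := kd_mono hkd1 d1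
  have hD : SqF B D := hkd.sq
  have hD0 : D ≠ 0 := hD.1
  -- the primes of `F` containing `D`
  have hfin : {v : HeightOneSpectrum (𝓞 F) | v.asIdeal ∣ Ideal.span {D}}.Finite :=
    Ideal.finite_factors (by rw [Ne, Ideal.zero_eq_bot, Ideal.span_singleton_eq_bot]; exact hD0)
  obtain ⟨R, hRe⟩ : ∃ R : Finset (HeightOneSpectrum (𝓞 F)),
      R = hfin.toFinset.filter fun v => (B : 𝓞 F) ∉ v.asIdeal := ⟨_, rfl⟩
  have hR : ∀ v, v ∈ R ↔ D ∈ v.asIdeal ∧ (B : 𝓞 F) ∉ v.asIdeal := by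
    intro v
    rw [hRe, Finset.mem_filter, Set.Finite.mem_toFinset, Set.mem_ofPred_eq, Ideal.dvd_iff_le,
      Ideal.span_singleton_le_iff_mem]
  let τ : HeightOneSpectrum (𝓞 K) → V := fun w =>
    if h : ∃ t : V, TyV w Δ t then h.choose else 0
  have hτ : ∀ l : ℕ, l.Prime → ¬ l ∣ B → ∀ w : HeightOneSpectrum (𝓞 K), Abv w l →
      iO F K D ∈ w.asIdeal → TyV w Δ (τ w) := by
    intro l hl hlB w hw hDw
    have hex' : ∃ t : V, TyV w Δ t := by
      obtain ⟨t, ht, -⟩ := hkd.odd l hl hlB w hw hDw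
      exact ⟨t, ht⟩
    have h1 : τ w = hex'.choose := dif_pos hex'
    rw [h1]
    exact hex'.choose_spec
  have hz := fun m : Fin M => hZEX (R.filter fun v => ch v = m) τ
    (by
      intro v hv h'
      refine ((hR v).1 (Finset.mem_filter.1 hv).1).2 ?_
      obtain ⟨m, hm⟩ := dz
      rw [hm, Nat.cast_mul]
      exact Ideal.mul_mem_right _ _ h')
    (by
      intro v hv w w' g hov hMv
      obtain ⟨h1, h2⟩ := (hR v).1 (Finset.mem_filter.1 hv).1
      obtain ⟨l, hl, hlB, hvl⟩ := exists_prime_below v hB0 h2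
      have hw : Abv w l := by
        have := (hov (l : 𝓞 F)).1 hvl
        rwa [map_natCast] at this
      have hDw : iO F K D ∈ w.asIdeal := (hov D).1 h1
      have hw' : Abv w' l := (hMv (l : 𝓞 K) (l : 𝓞 K) (by simp)).1 hw
      have hDw' : iO F K D ∈ w'.asIdeal := (mv_iO hMv D).1 hDw
      exact tyv_unique hV (hτ l hl hlB w' hw' hDw') (tyv_mv hkd.eqv hMv (hτ l hl hlB w hw hDw)))
  choose z hz1 hz2 hz3 hz4 N hN1 hN2 using hz
  have hcoe : ∀ t : V, ((∏ m, z m t : 𝓞 K) : K) = ∏ m, ((z m t : 𝓞 K) : K) := fun t =>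
    map_prod (algebraMap (𝓞 K) K) _ _
  have hRel0 : RV0 B D Δ (fun t => ∏ m, z m t) := by
    refine ⟨hkd, eqv_prod hz1, fun t => Finset.prod_ne_zero_iff.2 fun m _ => hz2 m t, ?_⟩
    intro l hl hlB w hw t
    have h1 := fun m => hz4 m l hl (fun h' => hlB (h'.trans dz)) w hw t
    obtain ⟨-, -, -, h5⟩ := hFR l hl fun h' => hlB (h'.trans dt)
    obtain ⟨v, hov, hvl, -⟩ := h5 w hw
    have e : w.valuation K ((∏ m, z m t : 𝓞 K) : K) = ∏ m, w.valuation K ((z m t : 𝓞 K) : K) := by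
      rw [hcoe, map_prod]
    change (_ → w.valuation K ((∏ m, z m t : 𝓞 K) : K) = _) ∧
      (_ → w.valuation K ((∏ m, z m t : 𝓞 K) : K) = 1)
    rw [e]
    constructor
    · rintro ⟨h3, h4⟩
      have hvR : v ∈ R := (hR v).2 ⟨(hov D).2 h3, not_mem_of_abv hl hvl hlB⟩
      have hτt : τ w = t := tyv_unique hV (hτ l hl hlB w hw h3) h4
      rw [Finset.prod_eq_single (ch v)]
      · exact (h1 (ch v)).1 ⟨⟨v, Finset.mem_filter.2 ⟨hvR, rfl⟩, hov⟩, hτt⟩
      · intro m _ hm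
        refine (h1 m).2 ?_
        rintro ⟨⟨v', hv', hov'⟩, -⟩
        rw [← ov_unique hov hov'] at hv'
        exact hm (Finset.mem_filter.1 hv').2.symm
      · exact fun h => absurd (mem_univ _) h
    · intro h3
      refine Finset.prod_eq_one fun m _ => (h1 m).2 ?_
      rintro ⟨⟨v', hv', hov'⟩, h6⟩
      apply h3
      have h7 : iO F K D ∈ w.asIdeal := (hov' D).1 ((hR v').1 (Finset.mem_filter.1 hv').1).1
      exact ⟨h7, h6 ▸ hτ l hl hlB w hw h7⟩
  obtain ⟨a, ha, hae⟩ := hQA D Δ _ hRel0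
  obtain ⟨μ, hμ, s, hs, hse⟩ := hQM D Δ _ hRel0
  refine ⟨μ, hμ, a, ha, z, ⟨hRel0, hae, ⟨s, hs, hse⟩⟩, fun m => ⟨hz1 m, hz3 m⟩,
    ⟨∏ m, N m, ?_, ?_⟩, ?_⟩
  · rw [map_prod]
    exact Finset.prod_congr rfl fun m _ => hN1 m
  · have h1 : Ideal.span {∏ m, N m} = ∏ m, Ideal.span {N m} := (Ideal.prod_span_singleton _ _).symm
    rw [h1, map_prod]
    push_cast
    calc ∏ m, ((Ideal.absNorm (Ideal.span {N m}) : ℕ) : ℝ)
        ≤ ∏ m : Fin M, (C0 * ∏ v ∈ R.filter (fun v => ch v = m), ((Ideal.absNorm v.asIdeal : ℕ) : ℝ)) :=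
          Finset.prod_le_prod (fun m _ => Nat.cast_nonneg _) fun m _ => hN2 m
      _ = C0 ^ M * ∏ v ∈ R, ((Ideal.absNorm v.asIdeal : ℕ) : ℝ) := by
          rw [Finset.prod_mul_distrib, Finset.prod_const, Finset.card_univ, Fintype.card_fin,
            Finset.prod_fiberwise]
      _ ≤ _ := mul_le_mul_of_nonneg_left (prod_norm_le hD0 R fun v hv => ((hR v).1 hv).1)
          (pow_nonneg hC0.le M)
  · intro l hl hlB w hw v hov m t hm
    have h1 := (hz4 m l hl (fun h' => hlB (h'.trans dz)) w hw t).2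
    by_contra hcon
    have h2 : ¬ ((∃ v ∈ R.filter (fun v => ch v = m), Ov w v) ∧ τ w = t) := by
      rintro ⟨⟨v', hv', hov'⟩, -⟩
      rw [← ov_unique hov hov'] at hv'
      obtain ⟨h3, h4⟩ := Finset.mem_filter.1 hv'
      exact hcon ⟨((hR v).1 h3).1, h4⟩
    have h3 := h1 h2
    have h4 : w.valuation K ((z m t : 𝓞 K) : K) < 1 := (w.valuation_lt_one_iff_mem _).2 hm
    rw [h3] at h4
    exact lt_irrefl _ h4

end Pool.Agent.Q288.ESV
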